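import Mathlib
import Pool.Agent.Helper344.Ent.Defs
import Pool.Agent.Helper344.Ent.P_tr_comp
import Pool.Agent.Helper344.Ent.P_arith
import Pool.Agent.Helper344.Ent.P_forward
import Pool.Agent.Helper344.Ent.P_backward
import Pool.Agent.Helper344.Ent.P_tr_vars

/-!
# The positive existential theory of the ring of entire functions of `n ≥ 2` variables is undecidable
-/

namespace Pool.Agent.Results.MP_af909d_lc.Undecidable

open Pool.Agent.Helper344.Ent (Pol evalP Solv ZSolv tr)

/-- The ring `H_n` of entire functions on `ℂⁿ`. -/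
def H (n : ℕ) : Subring ((Fin n → ℂ) → ℂ) where
  carrier := {f | Differentiable ℂ f}
  mul_mem' hf hg := hf.mul hg
  one_mem' := differentiable_const 1
  add_mem' hf hg := hf.add hg
  zero_mem' := differentiable_const 0
  neg_mem' hf := hf.neg

/-- The coordinate function `z_{i+1}` (the coordinates are numbered by `Fin n`). -/
def coord (n : ℕ) (i : Fin n) : H n := ⟨fun z => z i, differentiable_apply i⟩

/-- Polynomials with integer coefficients in the constants `z_i` (`Sum.inl i`, `i : Fin n`) and the
unknowns `x_j` (`Sum.inr j`, `j : ℕ`), written as lists of monomials; a monomial is an integer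
coefficient together with the list of its variables, with repetitions. -/
abbrev Poly (n : ℕ) := List (ℤ × List (Fin n ⊕ ℕ))

/-- The value in `H_n` of a polynomial, when the constants are interpreted by the coordinate
functions and the unknowns by the entire functions `x 0, x 1, …`. -/
def value {n : ℕ} (x : ℕ → H n) (p : Poly n) : H n :=
  (p.map fun m => (m.1 : H n) * (m.2.map (Sum.elim (coord n) x)).prod).sum

/-- The system of equations `p = 0`, `p ∈ S`, has a solution in `H_n`. -/
def Solvable (n : ℕ) (S : List (Poly n)) : Prop := ∃ x : ℕ → H n, ∀ p ∈ S, value x p = 0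

/-- sorting of the variables -/
def sortVar {n : ℕ} (hn : 2 ≤ n) (j : ℕ) : Fin n ⊕ ℕ :=
  if j = 0 then Sum.inl ⟨0, by omega⟩ else if j = 1 then Sum.inl ⟨1, by omega⟩ else Sum.inr (j - n)

def conv {n : ℕ} (hn : 2 ≤ n) (T : List Pol) : List (Poly n) :=
  T.map fun p => p.map fun m => (m.1, m.2.map (sortVar hn))

theorem conv_comp {n : ℕ} (hn : 2 ≤ n) : Computable (conv hn) := by
  have h1 : Primrec (sortVar hn) := by
    unfold sortVar
    refine Primrec.ite (Primrec.eq.comp Primrec.id (Primrec.const 0)) (Primrec.const _) ?_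
    refine Primrec.ite (Primrec.eq.comp Primrec.id (Primrec.const 1)) (Primrec.const _) ?_
    exact Primrec.sumInr.comp (Primrec.nat_sub.comp Primrec.id (Primrec.const n))
  have h2 : Primrec fun m : ℤ × List ℕ => (m.1, m.2.map (sortVar hn)) :=
    Primrec.pair Primrec.fst (Primrec.list_map Primrec.snd (h1.comp Primrec.snd).to₂)
  have h3 : Primrec fun p : Pol => p.map fun m => (m.1, m.2.map (sortVar hn)) :=
    Primrec.list_map Primrec.id (h2.comp Primrec.snd).to₂
  exact (Primrec.list_map Primrec.id (h3.comp Primrec.snd).to₂).to_comp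

theorem value_apply {n : ℕ} (x : ℕ → H n) (p : Poly n) (z : Fin n → ℂ) :
    (value x p : (Fin n → ℂ) → ℂ) z =
      (p.map fun m => (m.1 : ℂ) *
        (m.2.map (fun v => ((Sum.elim (coord n) x v : H n) : (Fin n → ℂ) → ℂ) z)).prod).sum := by
  have hprod : ∀ l : List (Fin n ⊕ ℕ),
      (((l.map (Sum.elim (coord n) x)).prod : H n) : (Fin n → ℂ) → ℂ) z =
      (l.map (fun v => ((Sum.elim (coord n) x v : H n) : (Fin n → ℂ) → ℂ) z)).prod := by
    intro l
    induction l with
    | nil => rfl
    | cons a l ih =>
      rw [List.map_cons, List.map_cons, List.prod_cons, List.prod_cons, ← ih]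
      rfl
  induction p with
  | nil => rfl
  | cons a p ih =>
    unfold value at ih ⊢
    rw [List.map_cons, List.map_cons, List.sum_cons, List.sum_cons, ← ih, ← hprod]
    rfl

theorem solvable_iff {n : ℕ} (hn : 2 ≤ n) (T : List Pol)
    (hT : ∀ p ∈ T, ∀ mo ∈ p, ∀ j ∈ mo.2, j < 2 ∨ n ≤ j) : Solvable n (conv hn T) ↔ Solv n T := by
  have key : ∀ (x : ℕ → H n) (ρ : ℕ → (Fin n → ℂ) → ℂ), (∀ (i : Fin n) (z : Fin n → ℂ), ρ i z = z i) →
      (∀ j, ρ (n + j) = x j) → ∀ p ∈ T, ∀ z,
      (value x (p.map fun m => (m.1, m.2.map (sortVar hn))) : (Fin n → ℂ) → ℂ) z =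
        evalP (fun j => ρ j z) p := by
    intro x ρ h0 h1 p hp z
    rw [value_apply]
    unfold evalP
    rw [List.map_map]
    congr 1
    apply List.map_congr_left
    intro m hm
    simp only [Function.comp_apply, List.map_map]
    congr 2
    apply List.map_congr_left
    intro j hj
    simp only [Function.comp_apply]
    unfold sortVar
    rcases hT p hp m hm j hj with h | h
    · interval_cases j
      · simpa [coord] using (h0 ⟨0, by omega⟩ z).symm
      · simpa [coord] using (h0 ⟨1, by omega⟩ z).symm
    · have hj0 : j ≠ 0 := by omega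
      have hj1 : j ≠ 1 := by omega
      simp only [hj0, hj1, if_false, Sum.elim_inr]
      rw [← h1 (j - n)]
      congr 2
      omega
  constructor
  · rintro ⟨x, hx⟩
    refine ⟨fun j z => if h : j < n then z ⟨j, h⟩ else (x (j - n) : (Fin n → ℂ) → ℂ) z, ?_, ?_, ?_⟩
    · intro j
      by_cases h : j < n
      · simp only [h, dite_true]
        exact differentiable_apply _
      · simp only [h, dite_false]
        exact (x (j - n)).2
    · intro i z
      simp
    · intro p hp z
      have h2 := key x (fun j z => if h : j < n then z ⟨j, h⟩ else (x (j - n) : (Fin n → ℂ) → ℂ) z)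
        (by intro i z; simp) (by intro j; funext z; simp) p hp z
      rw [← h2, hx _ (List.mem_map.2 ⟨p, hp, rfl⟩)]
      rfl
  · rintro ⟨ρ, h1, h2, h3⟩
    refine ⟨fun j => ⟨ρ (n + j), h1 _⟩, ?_⟩
    intro p' hp'
    obtain ⟨p, hp, rfl⟩ := List.mem_map.1 hp'
    apply Subtype.ext
    funext z
    rw [key _ ρ h2 (fun j => rfl) p hp z]
    exact h3 p hp z

/-- For every `n ≥ 2` there is no algorithm which decides, for finitely many systems `S ∈ F` of
polynomial equations with coefficients in `ℤ[z_1, …, z_n]`, whether at least one of them has a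
solution in the ring `H_n` of entire functions on `ℂⁿ`: the positive existential theory of `H_n` in
the language of rings with constants for the coordinate functions is undecidable. -/
theorem result (n : ℕ) (hn : 2 ≤ n) :
    ¬ ComputablePred fun F : List (List (Poly n)) => ∃ S ∈ F, Solvable n S := by
  intro h
  apply Pool.Agent.Helper344.Ent.arith
  have hf : Computable fun C : List (ℕ × ℕ × ℕ × ℕ) => [conv hn (tr n C)] :=
    Computable.list_cons.comp ((conv_comp hn).comp (Pool.Agent.Helper344.Ent.tr_comp n))
      (Computable.const [])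
  refine ComputablePred.computable_of_manyOneReducible
    (q := fun F : List (List (Poly n)) => ∃ S ∈ F, Solvable n S) ⟨_, hf, ?_⟩ h
  intro C
  have h1 := solvable_iff hn (tr n C) (Pool.Agent.Helper344.Ent.tr_vars n C)
  simp only [List.mem_singleton, exists_eq_left]
  rw [h1]
  exact ⟨fun h => Pool.Agent.Helper344.Ent.forward hn C h,
    fun h => Pool.Agent.Helper344.Ent.backward hn C h⟩

end Pool.Agent.Results.MP_af909d_lc.Undecidable
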